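import Pool.Agent.NH69.SP5

set_option autoImplicit false

namespace Pool.Agent.Results.MP_61b5b0_co.HypercubeDoubling

open Finset Pool.Agent.NH69.SP

/-- The hypercube graph `Q_m`: vertices are the `0/1`-vectors of length `m`, two vertices being
adjacent when they differ in exactly one coordinate. -/
def cube (m : ℕ) : SimpleGraph (Fin m → Bool) where
  Adj u v := hammingDist u v = 1
  symm := ⟨fun u v h => by rwa [hammingDist_comm]⟩
  loopless := ⟨fun u h => by simp at h⟩

instance (m : ℕ) : DecidableRel (cube m).Adj :=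
  inferInstanceAs (DecidableRel fun u v : Fin m → Bool => hammingDist u v = 1)

/-- The graph Laplacian `L = D - A` acting on `ℤ^V`. -/
def laplacian {V : Type} [Fintype V] [DecidableEq V] (G : SimpleGraph V) [DecidableRel G.Adj] :
    (V → ℤ) →+ (V → ℤ) :=
  (Matrix.mulVecLin (G.lapMatrix ℤ)).toAddMonoidHom

/-- The cokernel `A / f(A)` of an endomorphism `f` of an abelian group `A`. -/
def Coker {A : Type} [AddCommGroup A] (f : A →+ A) : Type := A ⧸ f.range

instance {A : Type} [AddCommGroup A] (f : A →+ A) : AddCommGroup (Coker f) :=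
  inferInstanceAs (AddCommGroup (A ⧸ f.range))

/-- The sandpile group `K(G)`: the torsion subgroup of `ℤ^V / L ℤ^V`. -/
def Sandpile {V : Type} [Fintype V] [DecidableEq V] (G : SimpleGraph V) [DecidableRel G.Adj] :
    Type := AddCommGroup.torsion (Coker (laplacian G))

instance {V : Type} [Fintype V] [DecidableEq V] (G : SimpleGraph V) [DecidableRel G.Adj] :
    AddCommGroup (Sandpile G) :=
  inferInstanceAs (AddCommGroup (AddCommGroup.torsion (Coker (laplacian G))))

/-- The 2-primary component of an abelian group. -/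
def Syl2 (H : Type) [AddCommGroup H] : Type := AddCommGroup.primaryComponent H 2

instance (H : Type) [AddCommGroup H] : AddCommGroup (Syl2 H) :=
  inferInstanceAs (AddCommGroup (AddCommGroup.primaryComponent H 2))

/-- The group `Syl₂ K(Q_m)`. -/
def SylK (m : ℕ) : Type := Syl2 (Sandpile (cube m))

instance (m : ℕ) : AddCommGroup (SylK m) :=
  inferInstanceAs (AddCommGroup (Syl2 (Sandpile (cube m))))

lemma mem_neighbor {m : ℕ} (v w : Fin m → Bool) :
    w ∈ (cube m).neighborFinset v ↔ ∃ i, flipAt v i = w := by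
  rw [SimpleGraph.mem_neighborFinset]
  show hammingDist v w = 1 ↔ _
  rw [hammingDist, Finset.card_eq_one]
  constructor
  · rintro ⟨i, hi⟩
    refine ⟨i, ?_⟩
    funext j
    by_cases hj : j = i
    · subst hj
      have h1 : j ∈ univ.filter (fun i => v i ≠ w i) := by rw [hi]; simp
      have h2 : v j ≠ w j := by simpa using h1
      simp only [flipAt, Function.update_self]
      cases hv : v j <;> cases hw : w j <;> simp_all
    · have h1 : j ∉ univ.filter (fun i => v i ≠ w i) := by rw [hi]; simpa using hj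
      have h2 : v j = w j := by simpa using h1
      simp [flipAt, Function.update_of_ne hj, h2]
  · rintro ⟨i, rfl⟩
    refine ⟨i, ?_⟩
    ext j
    by_cases hj : j = i
    · subst hj; simp [flipAt]
    · simp [flipAt, Function.update_of_ne hj, hj]

lemma flip_inj {m : ℕ} (v : Fin m → Bool) : Function.Injective (flipAt v) := by
  intro i j hij
  by_contra hne
  have h := congrFun hij i
  simp [flipAt, Function.update_of_ne hne] at h

lemma neighbor_eq {m : ℕ} (v : Fin m → Bool) :
    (cube m).neighborFinset v = univ.image (flipAt v) := by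
  ext w
  rw [mem_neighbor]
  simp

lemma laplacian_eq (m : ℕ) (f : (Fin m → Bool) → ℤ) : laplacian (cube m) f = Lap ℤ m f := by
  funext v
  show ((cube m).lapMatrix ℤ).mulVec f v = _
  rw [SimpleGraph.lapMatrix_mulVec_apply, Lap_apply, ← SimpleGraph.card_neighborFinset_eq_degree,
    neighbor_eq, Finset.card_image_of_injective _ (flip_inj v),
    Finset.sum_image (fun a _ b _ h => flip_inj v h), Finset.sum_sub_distrib]
  simp

lemma range_eq (m : ℕ) : (laplacian (cube m)).range = KL ℤ m := by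
  ext x
  rw [AddMonoidHom.mem_range, mem_KL]
  simp only [laplacian_eq]

lemma quot_eq {A : Type} [AddCommGroup A] {K K' : AddSubgroup A} (h : K = K') :
    Nonempty (two (A ⧸ K) ≃+ two (A ⧸ K')) := by
  subst h
  exact ⟨AddEquiv.refl _⟩

lemma syl_equiv (m : ℕ) :
    Nonempty (SylK m ≃+ two (R ℤ m ⧸ KL ℤ m)) := by
  obtain ⟨e1⟩ := two_torsion (Coker (laplacian (cube m)))
  obtain ⟨e2⟩ := quot_eq (range_eq m)
  exact ⟨e1.trans e2⟩

/-- **MP_61b5b0_co, Q1.** For every `n ≥ 1`,
`Syl₂ K(Q_{2^n}) ≅ (Syl₂ K(Q_{2^n - 1}))² × ℤ/2^{2^n + n - 1}`. -/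
theorem result (n : ℕ) (hn : 1 ≤ n) :
    Nonempty (SylK (2 ^ n) ≃+ (SylK (2 ^ n - 1) × SylK (2 ^ n - 1)) ×
      ZMod (2 ^ (2 ^ n + n - 1))) := by
  have h1 : 1 ≤ 2 ^ n := Nat.one_le_two_pow
  obtain ⟨e⟩ := main_int n (2 ^ n - 1) hn (by omega)
  obtain ⟨f⟩ := syl_equiv (2 ^ n - 1)
  obtain ⟨g⟩ := syl_equiv (2 ^ n - 1 + 1)
  have key : Nonempty (SylK (2 ^ n - 1 + 1) ≃+ (SylK (2 ^ n - 1) × SylK (2 ^ n - 1)) ×
        ZMod (2 ^ (2 ^ n - 1 + n))) :=
    ⟨(g.trans e).trans (AddEquiv.prodCongr (AddEquiv.prodCongr f.symm f.symm) (AddEquiv.refl _))⟩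
  rw [Nat.sub_add_cancel h1] at key
  have h2 : 2 ^ n - 1 + n = 2 ^ n + n - 1 := by omega
  rw [h2] at key
  exact key

end Pool.Agent.Results.MP_61b5b0_co.HypercubeDoubling
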